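import Pool.Agent.Lib.MP_9675a1_al.Alt.Asm

namespace Pool.Agent.Results.MP_9675a1_al.AltRange

/-- For all large primes `p` and all `d ≤ 2 ^ (p / C)` there are arbitrarily large `n` such that the
alternating group `A_n` is generated by two elements `a`, `b` with `w(a, b) ^ p = 1` for every word
`w` of length at most `d`. -/
theorem result : ∃ C p₀ : ℕ, 0 < C ∧ ∀ p : ℕ, p.Prime → p₀ ≤ p → ∀ d : ℕ, d ≤ 2 ^ (p / C) → ∀ N : ℕ,
    ∃ n : ℕ, N < n ∧ IsSimpleGroup (alternatingGroup (Fin n)) ∧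
      ∃ a b : alternatingGroup (Fin n),
        Subgroup.closure {a, b} = ⊤ ∧ ∀ w : FreeGroup (Fin 2), (FreeGroup.toWord w).length ≤ d →
          (FreeGroup.lift ![a, b] w) ^ p = 1 := by
  obtain ⟨C, p₀, hC, h⟩ := Pool.Agent.Lib.MP_9675a1_al.Alt.main_alt
  refine ⟨C, p₀, hC, fun p hp hp₀ d hd N => ?_⟩
  have := Fact.mk hp
  obtain ⟨n, h1, h2⟩ := h p hp₀ d hd (N + 5)
  exact ⟨n, by omega, alternatingGroup.isSimpleGroup (by simp; omega), h2⟩

end Pool.Agent.Results.MP_9675a1_al.AltRange
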