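import Pool.Agent.Lib.MP_9675a1_al.Lr.Ultra

namespace Pool.Agent.Results.MP_9675a1_al.LowRankNo

/-- For a prime `p` and numbers `r`, `m` there is `d` such that, for every linear representation `ρ`
of the free group of rank `r` over a field of characteristic different from `p`: if the `p`-th
powers of the words of length at most `d` act as scalars, then a word of length at most `m` that
differs from a scalar by an operator of rank at most `m` has at most `d` conjugates in the image. -/
theorem result : ∀ p : ℕ, p.Prime → ∀ r m : ℕ, ∃ d : ℕ,
    ∀ (F V : Type) [Field F] [AddCommGroup V] [Module F V], (p : F) ≠ 0 →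
    ∀ ρ : FreeGroup (Fin r) →* Module.End F V,
      (∀ w : FreeGroup (Fin r), w.toWord.length ≤ d → ∃ c : F, ρ w ^ p = c • 1) →
      ∀ (u : FreeGroup (Fin r)) (c : F), u.toWord.length ≤ m → LinearMap.rank (ρ u - c • 1) ≤ m →
        (Set.range fun w => ρ (w * u * w⁻¹)).encard ≤ d :=
  fun _ hp r m => Lib.MP_9675a1_al.Lr.local_thm hp r m

end Pool.Agent.Results.MP_9675a1_al.LowRankNo
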